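import Pool.Agent.X51.Golod.Lift
import Pool.Agent.X51.Golod.Height

/-!
# Artinian Golod quotients of embedding dimension three and type two

For every field `K` there is a homogeneous ideal `I` of `K[x, y, z]`, `𝔪^4 ⊆ I ⊆ 𝔪^3`, such that
`S / I` is Golod and of type two, while `ht I = 3`. (It is the annihilator of the forms `xyz` and
`x^3 + y^3 + z^3` under contraction.)
-/

set_option autoImplicit false

namespace Pool.Agent.Results.MP_5d828d_al.TypeTwoGolod

open MvPolynomial Pool.Agent.X51.Golod

/-- The socle of `S / I`: the elements killed by all variables. Its dimension is the type of `S / I`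
if `S / I` is artinian. -/
def socle {K : Type} [Field K] {n : ℕ} (I : Ideal (MvPolynomial (Fin n) K)) :
    Submodule K (MvPolynomial (Fin n) K ⧸ I) where
  carrier := {z | ∀ i : Fin n, Ideal.Quotient.mk I (X i) * z = 0}
  add_mem' := by
    intro a b ha hb i
    rw [mul_add, ha i, hb i, add_zero]
  zero_mem' := by
    intro i
    rw [mul_zero]
  smul_mem' := by
    intro c z hz i
    rw [mul_smul_comm, hz i, smul_zero]

variable {K : Type} [Field K]

lemma coeff_mul_low (q p : MvPolynomial (Fin 3) K) (hp : ∀ d, d.degree < 3 → coeff d p = 0)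
    (d : Fin 3 →₀ ℕ) (hd : d.degree ≤ 3) : coeff d (q * p) = coeff 0 q * coeff d p := by
  classical
  rw [coeff_mul, Finset.sum_eq_single (0, d)]
  · rintro ⟨a, b⟩ hab hne
    rw [Finset.HasAntidiagonal.mem_antidiagonal] at hab
    simp only at hab ⊢
    have ha : a ≠ 0 := by
      rintro rfl
      apply hne
      rw [zero_add] at hab
      rw [hab]
    have ha' : a.degree ≠ 0 := by rwa [ne_eq, Finsupp.degree_eq_zero_iff]
    have h1 : a.degree + b.degree = d.degree := by rw [← hab, map_add]
    rw [hp b (by omega), mul_zero]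
  · intro h
    exact absurd (Finset.HasAntidiagonal.mem_antidiagonal.mpr (zero_add d)) h

/-- exponent vector of `xyz` -/
noncomputable def e1 : Fin 3 →₀ ℕ := Finsupp.single 0 1 + Finsupp.single 1 1 + Finsupp.single 2 1

lemma deg_e1 : e1.degree = 3 := by
  simp [e1, map_add, Finsupp.degree_single]

/-- the annihilator of `xyz` and `x^3 + y^3 + z^3` -/
noncomputable def I3 (K : Type) [Field K] : Ideal (MvPolynomial (Fin 3) K) where
  carrier := {p | (∀ d, d.degree < 3 → coeff d p = 0) ∧ coeff e1 p = 0 ∧
    ∑ i : Fin 3, coeff (Finsupp.single i 3) p = 0}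
  add_mem' := by
    rintro p q ⟨h1, h2, h3⟩ ⟨h4, h5, h6⟩
    refine ⟨fun d hd => ?_, ?_, ?_⟩
    · rw [coeff_add, h1 d hd, h4 d hd, add_zero]
    · rw [coeff_add, h2, h5, add_zero]
    · simp only [coeff_add]
      rw [Finset.sum_add_distrib, h3, h6, add_zero]
  zero_mem' := by simp
  smul_mem' := by
    rintro q p ⟨h1, h2, h3⟩
    rw [smul_eq_mul]
    refine ⟨fun d hd => ?_, ?_, ?_⟩
    · rw [coeff_mul_low q p h1 d hd.le, h1 d hd, mul_zero]
    · rw [coeff_mul_low q p h1 _ deg_e1.le, h2, mul_zero]
    · have : ∀ i : Fin 3, coeff (Finsupp.single i 3) (q * p) =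
          coeff 0 q * coeff (Finsupp.single i 3) p := fun i =>
        coeff_mul_low q p h1 _ (by rw [Finsupp.degree_single])
      simp only [this]
      rw [← Finset.mul_sum, h3, mul_zero]

lemma mem_I3 (p : MvPolynomial (Fin 3) K) : p ∈ I3 K ↔ (∀ d, d.degree < 3 → coeff d p = 0) ∧
    coeff e1 p = 0 ∧ ∑ i : Fin 3, coeff (Finsupp.single i 3) p = 0 := Iff.rfl

lemma I3_le : I3 K ≤ idealOfVars (Fin 3) K ^ 3 := by
  intro p hp
  rw [mem_pow_idealOfVars_iff']
  exact hp.1

lemma le_I3 : idealOfVars (Fin 3) K ^ 4 ≤ I3 K := by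
  intro p hp
  rw [mem_pow_idealOfVars_iff'] at hp
  refine ⟨fun d hd => hp d (by omega), hp _ (by rw [deg_e1]; norm_num), ?_⟩
  exact Finset.sum_eq_zero fun i _ => hp _ (by rw [Finsupp.degree_single]; norm_num)

lemma I3_hom (p : MvPolynomial (Fin 3) K) (hp : p ∈ I3 K) (c : ℕ) :
    homogeneousComponent c p ∈ I3 K := by
  obtain ⟨h1, h2, h3⟩ := hp
  refine ⟨fun d hd => ?_, ?_, ?_⟩
  · rw [coeff_homogeneousComponent, h1 d hd, ite_self]
  · rw [coeff_homogeneousComponent, h2, ite_self]
  · simp only [coeff_homogeneousComponent, Finsupp.degree_single]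
    split_ifs
    · exact h3
    · simp

lemma deg_two (d : Fin 3 →₀ ℕ) (hd : d.degree = 2) :
    ∃ i j : Fin 3, d = Finsupp.single i 1 + Finsupp.single j 1 := by
  have h0 : d ≠ 0 := by
    rintro rfl
    simp at hd
  obtain ⟨i, hi⟩ : ∃ i, d i ≠ 0 := by
    by_contra h
    push Not at h
    exact h0 (Finsupp.ext h)
  have h1 : Finsupp.single i 1 + (d - Finsupp.single i 1) = d := by
    apply add_tsub_cancel_of_le
    rw [Finsupp.single_le_iff]
    omega
  have h2 : (d - Finsupp.single i 1).degree = 1 := by
    have h3 := congrArg Finsupp.degree h1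
    rw [map_add, Finsupp.degree_single, hd] at h3
    omega
  have h4 : d - Finsupp.single i 1 ≠ 0 := by
    intro h
    rw [h] at h2
    simp at h2
  obtain ⟨j, hj⟩ : ∃ j, (d - Finsupp.single i 1 : Fin 3 →₀ ℕ) j ≠ 0 := by
    by_contra h
    push Not at h
    exact h4 (Finsupp.ext h)
  have h5 : Finsupp.single j 1 + (d - Finsupp.single i 1 - Finsupp.single j 1) =
      d - Finsupp.single i 1 := by
    apply add_tsub_cancel_of_le
    rw [Finsupp.single_le_iff]
    omega
  have h6 : d - Finsupp.single i 1 - Finsupp.single j 1 = 0 := by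
    rw [← Finsupp.degree_eq_zero_iff]
    have h3 := congrArg Finsupp.degree h5
    rw [map_add, Finsupp.degree_single, h2] at h3
    omega
  rw [h6, add_zero] at h5
  exact ⟨i, j, by rw [h5, h1]⟩

/-- the coefficients of degree at most two of a lift of a socle element vanish -/
lemma low_zero (p : MvPolynomial (Fin 3) K) (hp : ∀ i, X i * p ∈ I3 K) :
    ∀ d : Fin 3 →₀ ℕ, d.degree < 3 → coeff d p = 0 := by
  intro d hd
  by_cases h2 : d.degree < 2
  · have := (hp 0).1 (Finsupp.single 0 1 + d) (by rw [map_add, Finsupp.degree_single]; omega)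
    rwa [coeff_X_mul] at this
  · obtain ⟨i, j, rfl⟩ := deg_two d (by omega)
    by_cases hij : i = j
    · subst hij
      have h3 := (hp i).2.2
      rw [Finset.sum_eq_single i] at h3
      · have h4 : (Finsupp.single i 3 : Fin 3 →₀ ℕ) =
            Finsupp.single i 1 + (Finsupp.single i 1 + Finsupp.single i 1) := by
          rw [← Finsupp.single_add, ← Finsupp.single_add]
          rfl
        rwa [h4, coeff_X_mul] at h3
      · intro k _ hk
        rw [coeff_X_mul', if_neg]
        rw [Finsupp.mem_support_iff, Finsupp.single_apply, if_neg hk]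
        simp
      · intro h
        exact absurd (Finset.mem_univ _) h
    · have hk : ∃ k : Fin 3, e1 = Finsupp.single k 1 + (Finsupp.single i 1 + Finsupp.single j 1) := by
        unfold e1
        fin_cases i <;> fin_cases j
        · exact absurd rfl hij
        · exact ⟨2, by simp only [Fin.zero_eta, Fin.mk_one]; abel⟩
        · exact ⟨1, by simp only [Fin.zero_eta, Fin.reduceFinMk]; abel⟩
        · exact ⟨2, by simp only [Fin.zero_eta, Fin.mk_one]; abel⟩
        · exact absurd rfl hij
        · exact ⟨0, by simp only [Fin.mk_one, Fin.reduceFinMk]; abel⟩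
        · exact ⟨1, by simp only [Fin.zero_eta, Fin.reduceFinMk]; abel⟩
        · exact ⟨0, by simp only [Fin.mk_one, Fin.reduceFinMk]; abel⟩
        · exact absurd rfl hij
      obtain ⟨k, hk⟩ := hk
      have h3 := (hp k).2.1
      rwa [hk, coeff_X_mul] at h3

lemma e1_ne (i : Fin 3) : (Finsupp.single i 3 : Fin 3 →₀ ℕ) ≠ e1 := by
  intro h
  have h1 := DFunLike.congr_fun h i
  unfold e1 at h1
  fin_cases i <;> simp at h1

/-- representatives of a basis of the socle -/
noncomputable def sb (K : Type) [Field K] : Fin 2 → MvPolynomial (Fin 3) K :=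
  ![monomial e1 1, monomial (Finsupp.single 0 3) 1]

lemma sub_mem (p : MvPolynomial (Fin 3) K) (hp : ∀ d : Fin 3 →₀ ℕ, d.degree < 3 → coeff d p = 0)
    (a b : K) : p - (C a * sb K 0 + C b * sb K 1) ∈ I3 K ↔
      coeff e1 p = a ∧ ∑ i : Fin 3, coeff (Finsupp.single i 3) p = b := by
  classical
  have h0 : (Finsupp.single (0 : Fin 3) 3 : Fin 3 →₀ ℕ) ≠ e1 := e1_ne 0
  have hs1 : (Finsupp.single (1 : Fin 3) 3 : Fin 3 →₀ ℕ) ≠ Finsupp.single 0 3 := by
    intro h
    have := DFunLike.congr_fun h 0
    simp at this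
  have hs2 : (Finsupp.single (2 : Fin 3) 3 : Fin 3 →₀ ℕ) ≠ Finsupp.single 0 3 := by
    intro h
    have := DFunLike.congr_fun h 0
    simp at this
  have hc : ∀ d, coeff d (p - (C a * sb K 0 + C b * sb K 1)) =
      coeff d p - (a * (if e1 = d then 1 else 0) +
        b * (if (Finsupp.single 0 3 : Fin 3 →₀ ℕ) = d then 1 else 0)) := by
    intro d
    simp only [sb, Matrix.cons_val_zero, Matrix.cons_val_one, coeff_sub, coeff_add, coeff_C_mul,
      coeff_monomial]
  have k1 : coeff e1 (p - (C a * sb K 0 + C b * sb K 1)) = coeff e1 p - a := by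
    rw [hc, if_pos rfl, if_neg h0]
    ring
  have k2 : coeff (Finsupp.single 0 3) (p - (C a * sb K 0 + C b * sb K 1)) =
      coeff (Finsupp.single 0 3) p - b := by
    rw [hc, if_pos rfl, if_neg h0.symm]
    ring
  have k3 : coeff (Finsupp.single 1 3) (p - (C a * sb K 0 + C b * sb K 1)) =
      coeff (Finsupp.single 1 3) p := by
    rw [hc, if_neg hs1.symm, if_neg (e1_ne 1).symm]
    ring
  have k4 : coeff (Finsupp.single 2 3) (p - (C a * sb K 0 + C b * sb K 1)) =
      coeff (Finsupp.single 2 3) p := by
    rw [hc, if_neg hs2.symm, if_neg (e1_ne 2).symm]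
    ring
  rw [mem_I3, Fin.sum_univ_three, Fin.sum_univ_three, k1, k2, k3, k4]
  constructor
  · rintro ⟨-, h1, h2⟩
    refine ⟨by linear_combination h1, by linear_combination h2⟩
  · rintro ⟨h1, h2⟩
    refine ⟨fun d hd => ?_, by linear_combination h1, by linear_combination h2⟩
    rw [hc, hp d hd, if_neg, if_neg]
    · simp
    · rintro rfl
      rw [Finsupp.degree_single] at hd
      omega
    · rintro rfl
      rw [deg_e1] at hd
      omega

lemma socle_rank : Module.finrank K (socle (I3 K)) = 2 := by
  classical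
  have hli : LinearIndependent K (fun i : Fin 2 => Ideal.Quotient.mk (I3 K) (sb K i)) := by
    rw [Fintype.linearIndependent_iff]
    intro g hg
    rw [Fin.sum_univ_two] at hg
    have h1 : (0 : MvPolynomial (Fin 3) K) - (C (g 0) * sb K 0 + C (g 1) * sb K 1) ∈ I3 K := by
      rw [zero_sub, neg_mem_iff, ← Ideal.Quotient.eq_zero_iff_mem, map_add]
      rw [← smul_eq_C_mul, ← smul_eq_C_mul]
      exact hg
    rw [sub_mem 0 (by simp)] at h1
    simp only [coeff_zero, Finset.sum_const_zero] at h1
    intro i
    fin_cases i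
    · exact h1.1.symm
    · exact h1.2.symm
  have hspan : socle (I3 K) =
      Submodule.span K (Set.range fun i : Fin 2 => Ideal.Quotient.mk (I3 K) (sb K i)) := by
    apply le_antisymm
    · intro z hz
      obtain ⟨p, rfl⟩ := Ideal.Quotient.mk_surjective z
      have hp : ∀ i, X i * p ∈ I3 K := by
        intro i
        have := hz i
        rwa [← map_mul, Ideal.Quotient.eq_zero_iff_mem] at this
      have h1 := (sub_mem p (low_zero p hp) _ _).mpr ⟨rfl, rfl⟩
      rw [← Ideal.Quotient.eq_zero_iff_mem, map_sub, sub_eq_zero, map_add, ← smul_eq_C_mul,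
        ← smul_eq_C_mul] at h1
      rw [h1]
      refine Submodule.add_mem _ (Submodule.smul_mem _ _ (Submodule.subset_span (Set.mem_range_self 0)))
        (Submodule.smul_mem _ _ (Submodule.subset_span (Set.mem_range_self 1)))
    · rw [Submodule.span_le]
      rintro _ ⟨i, rfl⟩ j
      simp only
      rw [← map_mul, Ideal.Quotient.eq_zero_iff_mem]
      apply le_I3
      rw [mem_pow_idealOfVars_iff']
      intro d hd
      rw [coeff_X_mul']
      split_ifs with hj
      · have h3 : Finsupp.single j 1 + (d - Finsupp.single j 1) = d := by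
          apply add_tsub_cancel_of_le
          rw [Finsupp.single_le_iff]
          rw [Finsupp.mem_support_iff] at hj
          omega
        have h4 := congrArg Finsupp.degree h3
        rw [map_add, Finsupp.degree_single] at h4
        fin_cases i
        · change coeff _ (monomial e1 (1 : K)) = 0
          rw [coeff_monomial, if_neg]
          intro h
          rw [← h, deg_e1] at h4
          omega
        · change coeff _ (monomial (Finsupp.single 0 3) (1 : K)) = 0
          rw [coeff_monomial, if_neg]
          intro h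
          rw [← h, Finsupp.degree_single] at h4
          omega
      · rfl
  rw [hspan, finrank_span_eq_card hli, Fintype.card_fin]

/-- For every field `K` there is a homogeneous ideal `I` of `S = K[x_1, x_2, x_3]` with
`𝔪^4 ⊆ I ⊆ 𝔪^3` such that `S / I` is Golod, `ht I = 3` and the socle of the artinian ring `S / I`
has dimension two. -/
theorem result (K : Type) [Field K] : ∃ I : Ideal (MvPolynomial (Fin 3) K),
    (∀ p ∈ I, ∀ c, homogeneousComponent c p ∈ I) ∧
    idealOfVars (Fin 3) K ^ 4 ≤ I ∧ I ≤ idealOfVars (Fin 3) K ^ 3 ∧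
    I.height = 3 ∧
    IsGolod K (fun j => Ideal.Quotient.mk I (X j)) ∧
    Module.finrank K (socle I) = 2 :=
  ⟨I3 K, fun p hp c => I3_hom p hp c, le_I3, I3_le,
    height_eq (I3 K) 4 (I3_le.trans (Ideal.pow_le_self (by norm_num))) le_I3,
    golod_low (I3 K) 3 I3_le le_I3, socle_rank⟩

end Pool.Agent.Results.MP_5d828d_al.TypeTwoGolod
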